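import Mathlib

/-!
# Resource burning against review spam: the conjectured bound fails, for every exponent below one

For every algorithm, every constant `c` and every exponent `a < 1` (the conjecture is `a = 2/3`)
some adversary, which fixes the times and the types of all posts in advance and pays every fee,
forces `E[C] > c (E[T]^a + E[P_G])`.

The adversary is greedy: the fee of the next post is set before its type is known, so whenever the
expected fee is at least `c + 1` it makes a legitimate post, and otherwise it makes a spam post.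
-/

open MeasureTheory
open scoped ENNReal NNReal

namespace Pool.Agent.Results.MP_590456_lc.NoSublinearBound

/-- An algorithm: a probability space for its private random bits, and a fee for the next
post, which depends on the published posts so far (the time step and the label of each; the label
`true` means `spam`), on the current time step and on the random bits. -/
structure Algorithm where
  Ω : Type
  mΩ : MeasurableSpace Ω
  μ : Measure Ω
  prob : IsProbabilityMeasure μ
  fee : List (ℕ × Bool) → ℕ → Ω → ℝ≥0
  meas : ∀ h t, Measurable (fee h t)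

attribute [instance] Algorithm.mΩ Algorithm.prob

/-- A post: its time step and whether it is spam (made by a bad ID). -/
structure Post where
  time : ℕ
  spam : Bool

/-- The posts of an oblivious adversary who pays every fee: the list, fixed in advance, of all
posts in the order in which they are made.  The time steps are nondecreasing and in `1, …, L`. -/
def Legal (L : ℕ) (σ : List Post) : Prop :=
  (σ.map Post.time).Pairwise (· ≤ ·) ∧ ∀ p ∈ σ, 1 ≤ p.time ∧ p.time ≤ L

/-- The law of the errors of the classifier: independent, each label is wrong (`true`) with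
probability `ε`. -/
noncomputable def errorLaw (ε : unitInterval) : Measure (ℕ → Bool) :=
  Measure.infinitePi (fun _ : ℕ => ProbabilityTheory.bernoulliMeasure true false ε)

/-- What the algorithm sees of the published posts `σ` when the errors are `e`: the time step and
the label of each of them.  The label is the true type, flipped if the classifier errs. -/
def seen (σ : List Post) (e : ℕ → Bool) : List (ℕ × Bool) :=
  σ.mapIdx fun i p => (p.time, xor p.spam (e i))

/-- The fee of the post number `i` of the list `σ` (counted from `0`). -/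
def feeOf (A : Algorithm) (σ : List Post) (i : Fin σ.length) (x : A.Ω × (ℕ → Bool)) : ℝ≥0 :=
  A.fee (seen (σ.take i) x.2) (σ.get i).time x.1

/-- The expectation over the random bits of the algorithm and the errors of the classifier, which
are independent. -/
noncomputable def expect (ε : unitInterval) (A : Algorithm)
    (X : A.Ω × (ℕ → Bool) → ℝ≥0∞) : ℝ≥0∞ :=
  ∫⁻ x, X x ∂(A.μ.prod (errorLaw ε))

/-- `C`: the number of published spam posts plus the fees paid on legitimate posts, per step. -/
noncomputable def costRate (A : Algorithm) (L : ℕ) (σ : List Post) (x : A.Ω × (ℕ → Bool)) :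
    ℝ≥0∞ :=
  (∑ i : Fin σ.length, if (σ.get i).spam then 1 else (feeOf A σ i x : ℝ≥0∞)) / L

/-- `T`: the fees paid on spam, per step. -/
noncomputable def spendRate (A : Algorithm) (L : ℕ) (σ : List Post) (x : A.Ω × (ℕ → Bool)) :
    ℝ≥0∞ :=
  (∑ i : Fin σ.length, if (σ.get i).spam then (feeOf A σ i x : ℝ≥0∞) else 0) / L

/-- `P_G`: the number of legitimate posts, per step. -/
noncomputable def goodRate (L : ℕ) (σ : List Post) : ℝ≥0∞ :=
  (σ.countP (fun p => !p.spam) : ℝ≥0∞) / L

/-! ### Expected fees -/

instance (ε : unitInterval) : IsProbabilityMeasure (errorLaw ε) := by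
  unfold errorLaw; infer_instance

/-- The expected fee of a post at time `t` after the posts `σ`. -/
noncomputable def expFee (ε : unitInterval) (A : Algorithm) (σ : List Post) (t : ℕ) : ℝ≥0∞ :=
  expect ε A (fun x => (A.fee (seen σ x.2) t x.1 : ℝ≥0∞))

lemma seen_congr (σ : List Post) (e e' : ℕ → Bool) (h : ∀ i < σ.length, e i = e' i) :
    seen σ e = seen σ e' := by
  unfold seen
  apply List.ext_getElem
  · simp
  · intro i h1 h2
    simp only [List.length_mapIdx] at h1
    simp [h i h1]

lemma measurable_fee (A : Algorithm) (σ : List Post) (t : ℕ) :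
    Measurable (fun x : A.Ω × (ℕ → Bool) => (A.fee (seen σ x.2) t x.1 : ℝ≥0∞)) := by
  set n := σ.length with hn
  -- restrict the errors to the first `n` posts
  let ext : (Fin n → Bool) → (ℕ → Bool) := fun e i => if h : i < n then e ⟨i, h⟩ else false
  have h2 : Measurable (fun y : A.Ω × (Fin n → Bool) =>
      (A.fee (seen σ (ext y.2)) t y.1 : ℝ≥0∞)) := by
    apply measurable_from_prod_countable_left
    intro e
    exact measurable_coe_nnreal_ennreal.comp (A.meas (seen σ (ext e)) t)
  have h3 : Measurable (fun x : A.Ω × (ℕ → Bool) => ((x.1, fun i : Fin n => x.2 i) :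
      A.Ω × (Fin n → Bool))) := by
    apply Measurable.prodMk measurable_fst
    apply measurable_pi_lambda
    intro i
    exact (measurable_pi_apply _).comp measurable_snd
  have h4 := h2.comp h3
  convert h4 using 1
  funext x
  simp only [Function.comp]
  rw [seen_congr σ x.2 (ext fun i => x.2 i)]
  intro i hi
  simp only [ext]
  rw [dif_pos (by omega)]

lemma expect_sum_div (ε : unitInterval) (A : Algorithm) (L : ℕ) {ι : Type} (s : Finset ι)
    (g : ι → A.Ω × (ℕ → Bool) → ℝ≥0∞) (hg : ∀ i ∈ s, Measurable (g i)) :
    expect ε A (fun x => (∑ i ∈ s, g i x) / L) = (∑ i ∈ s, expect ε A (g i)) / L := by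
  unfold expect
  simp only [div_eq_mul_inv]
  rw [lintegral_mul_const _ (Finset.measurable_fun_sum s hg), lintegral_finsetSum' _ (fun i hi => (hg i hi).aemeasurable)]

lemma expect_const (ε : unitInterval) (A : Algorithm) (r : ℝ≥0∞) :
    expect ε A (fun _ => r) = r := by
  unfold expect
  simp

lemma expect_cost (ε : unitInterval) (A : Algorithm) (L : ℕ) (σ : List Post) :
    expect ε A (costRate A L σ) =
      (∑ i : Fin σ.length, if (σ.get i).spam then 1 else
        expFee ε A (σ.take i) (σ.get i).time) / L := by
  unfold costRate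
  rw [expect_sum_div ε A L Finset.univ (fun i x => if (σ.get i).spam then 1 else
    (feeOf A σ i x : ℝ≥0∞))]
  · congr 1
    apply Finset.sum_congr rfl
    intro i _
    by_cases h : (σ.get i).spam
    · simp only [h, if_true]
      exact expect_const ε A 1
    · simp only [h]
      rfl
  · intro i _
    by_cases h : (σ.get i).spam
    · simp only [h, if_true]
      exact measurable_const
    · simp only [h]
      exact measurable_fee A (σ.take i) _

lemma expect_spend (ε : unitInterval) (A : Algorithm) (L : ℕ) (σ : List Post) :
    expect ε A (spendRate A L σ) =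
      (∑ i : Fin σ.length, if (σ.get i).spam then
        expFee ε A (σ.take i) (σ.get i).time else 0) / L := by
  unfold spendRate
  rw [expect_sum_div ε A L Finset.univ (fun i x => if (σ.get i).spam then
    (feeOf A σ i x : ℝ≥0∞) else 0)]
  · congr 1
    apply Finset.sum_congr rfl
    intro i _
    by_cases h : (σ.get i).spam
    · simp only [h, if_true]
      rfl
    · simp only [h]
      exact expect_const ε A 0
  · intro i _
    by_cases h : (σ.get i).spam
    · simp only [h, if_true]
      exact measurable_fee A (σ.take i) _
    · simp only [h]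
      exact measurable_const

/-! ### The greedy adversary -/

/-- The first `j` posts of the greedy adversary, who makes `n` posts in each time step. -/
noncomputable def greedy (ε : unitInterval) (A : Algorithm) (K : ℝ≥0∞) (n : ℕ) : ℕ → List Post
  | 0 => []
  | j + 1 => greedy ε A K n j ++
      [⟨j / n + 1, decide (expFee ε A (greedy ε A K n j) (j / n + 1) < K)⟩]

section
variable (ε : unitInterval) (A : Algorithm) (K : ℝ≥0∞) (n : ℕ)

lemma greedy_length (j : ℕ) : (greedy ε A K n j).length = j := by
  induction j with
  | zero => rfl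
  | succ j ih => simp [greedy, ih]

lemma greedy_take (j i : ℕ) (h : i ≤ j) : (greedy ε A K n j).take i = greedy ε A K n i := by
  induction j with
  | zero => obtain rfl : i = 0 := by omega
            rfl
  | succ j ih =>
    rcases Nat.lt_or_ge i (j + 1) with h1 | h1
    · rw [greedy, List.take_append_of_le_length (by rw [greedy_length]; omega)]
      exact ih (by omega)
    · obtain rfl : i = j + 1 := by omega
      rw [List.take_of_length_le]
      rw [greedy_length]

lemma greedy_get (j i : ℕ) (h : i < (greedy ε A K n j).length) :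
    (greedy ε A K n j)[i] =
      ⟨i / n + 1, decide (expFee ε A (greedy ε A K n i) (i / n + 1) < K)⟩ := by
  have hi : i < j := by rwa [greedy_length] at h
  have h1 : (greedy ε A K n j)[i] = (greedy ε A K n (i + 1))[i]'(by rw [greedy_length]; omega) := by
    simp only [← greedy_take ε A K n j (i + 1) (by omega)]
    rw [List.getElem_take]
  rw [h1]
  have h2 : (greedy ε A K n (i + 1)) = greedy ε A K n i ++
      [⟨i / n + 1, decide (expFee ε A (greedy ε A K n i) (i / n + 1) < K)⟩] := rfl
  rw [List.getElem_of_eq h2]
  rw [List.getElem_append_right (by rw [greedy_length])]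
  simp [greedy_length]

lemma greedy_map_time (j : ℕ) :
    (greedy ε A K n j).map Post.time = (List.range j).map (fun i => i / n + 1) := by
  induction j with
  | zero => rfl
  | succ j ih => rw [greedy, List.map_append, ih, List.range_succ, List.map_append]; rfl

lemma greedy_legal (L : ℕ) (hn : 0 < n) : Legal L (greedy ε A K n (n * L)) := by
  constructor
  · rw [greedy_map_time, List.pairwise_map]
    refine List.Pairwise.imp ?_ (List.pairwise_lt_range (n := n * L))
    intro a b hab
    exact Nat.add_le_add_right (Nat.div_le_div_right (le_of_lt hab)) 1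
  · intro p hp
    have : p.time ∈ (greedy ε A K n (n * L)).map Post.time := List.mem_map_of_mem hp
    rw [greedy_map_time] at this
    obtain ⟨i, hi, h⟩ := List.mem_map.1 this
    rw [List.mem_range] at hi
    rw [← h]
    refine ⟨Nat.succ_le_succ (Nat.zero_le _), ?_⟩
    have : i / n < L := by
      rw [Nat.div_lt_iff_lt_mul hn]
      rwa [mul_comm]
    exact this

lemma greedy_count (L : ℕ) (hn : 0 < n) (t : ℕ) (h1 : 1 ≤ t) (h2 : t ≤ L) :
    (greedy ε A K n (n * L)).countP (fun p => p.time = t) = n := by
  have h3 : (greedy ε A K n (n * L)).countP (fun p => p.time = t) =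
      ((greedy ε A K n (n * L)).map Post.time).countP (fun s => s = t) := by
    rw [List.countP_map]
    rfl
  rw [h3, greedy_map_time, List.countP_map]
  have h4 : (List.range (n * L)).countP ((fun s => decide (s = t)) ∘ fun i => i / n + 1) =
      ((Finset.range (n * L)).filter (fun i => i / n + 1 = t)).card := by
    rw [Finset.card_def, Finset.filter_val, Finset.range_val, Multiset.range,
      Multiset.filter_coe, Multiset.coe_card, List.countP_eq_length_filter]
    rfl
  rw [h4]
  have h5 : (Finset.range (n * L)).filter (fun i => i / n + 1 = t) =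
      Finset.Ico (n * (t - 1)) (n * t) := by
    ext i
    simp only [Finset.mem_filter, Finset.mem_range, Finset.mem_Ico]
    constructor
    · rintro ⟨_, h⟩
      have h' : i / n = t - 1 := by
        rw [← h, Nat.add_sub_cancel]
      rw [Nat.div_eq_iff hn] at h'
      obtain ⟨s, rfl⟩ : ∃ s, t = s + 1 := ⟨t - 1, by omega⟩
      simp only [Nat.add_sub_cancel] at h' ⊢
      rw [Nat.mul_succ]
      constructor
      · linarith [h'.1, mul_comm n s]
      · have := h'.2
        rw [mul_comm n s]
        omega
    · rintro ⟨ha, hb⟩
      have h' : i / n = t - 1 := by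
        rw [Nat.div_eq_iff hn]
        obtain ⟨s, rfl⟩ : ∃ s, t = s + 1 := ⟨t - 1, by omega⟩
        simp only [Nat.add_sub_cancel] at ha ⊢
        rw [Nat.mul_succ, mul_comm n s] at hb
        rw [mul_comm n s] at ha
        omega
      refine ⟨lt_of_lt_of_le hb (Nat.mul_le_mul_left n h2), ?_⟩
      rw [h']
      omega
  rw [h5, Nat.card_Ico]
  obtain ⟨s, rfl⟩ : ∃ s, t = s + 1 := ⟨t - 1, by omega⟩
  simp [Nat.mul_succ]

end

lemma sum_ite_eq_countP (σ : List Post) (u v : ℝ≥0∞) :
    (∑ i : Fin σ.length, if (σ.get i).spam then u else v) =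
      σ.countP (fun p => p.spam) * u + σ.countP (fun p => !p.spam) * v := by
  induction σ with
  | nil => simp
  | cons p σ ih =>
    have h := Fin.sum_univ_succ (n := σ.length)
      (fun i => if ((p :: σ).get i).spam then u else v)
    refine h.trans ?_
    simp only [List.get_eq_getElem] at ih
    simp only [List.get_eq_getElem, Fin.val_zero, List.getElem_cons_zero, Fin.val_succ,
      List.getElem_cons_succ, ih, List.countP_cons]
    rcases p with ⟨t, b⟩
    cases b <;> simp <;> ring

theorem result (ε : unitInterval) (c : ℝ≥0) (a : ℝ) (ha0 : 0 ≤ a) (ha : a < 1) :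
    ∃ n : ℕ, ∀ (A : Algorithm) (L : ℕ), 1 ≤ L → ∃ σ : List Post, Legal L σ ∧
      (∀ t, 1 ≤ t → t ≤ L → σ.countP (fun p => p.time = t) = n) ∧
      (c : ℝ≥0∞) * ((expect ε A (spendRate A L σ)) ^ a + goodRate L σ) <
        expect ε A (costRate A L σ) := by
  -- choose `n` with `c ((c + 1) n) ^ a < n`
  obtain ⟨n, hn0, hn⟩ : ∃ n : ℕ, 0 < n ∧ (c : ℝ) * (((c : ℝ) + 1) * n) ^ a < n := by
    have h1 : Filter.Tendsto (fun x : ℝ => x ^ (1 - a)) Filter.atTop Filter.atTop :=
      tendsto_rpow_atTop (by linarith)
    have h2 := (h1.comp tendsto_natCast_atTop_atTop).eventually_gt_atTop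
      ((c : ℝ) * ((c : ℝ) + 1) ^ a)
    obtain ⟨n, hn, hn1⟩ := (h2.and (Filter.eventually_ge_atTop 1)).exists
    refine ⟨n, hn1, ?_⟩
    have hpos : (0 : ℝ) < n := by exact_mod_cast hn1
    simp only [Function.comp] at hn
    rw [Real.mul_rpow (by positivity) hpos.le]
    calc (c : ℝ) * (((c : ℝ) + 1) ^ a * (n : ℝ) ^ a)
        = ((c : ℝ) * ((c : ℝ) + 1) ^ a) * (n : ℝ) ^ a := by ring
      _ < (n : ℝ) ^ (1 - a) * (n : ℝ) ^ a := by
          apply mul_lt_mul_of_pos_right hn
          positivity
      _ = n := by
          rw [← Real.rpow_add hpos]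
          simp
  refine ⟨n, fun A L hL => ?_⟩
  set K : ℝ≥0∞ := ((c + 1 : ℝ≥0) : ℝ≥0∞) with hK
  set σ := greedy ε A K n (n * L) with hσ
  have hlen : σ.length = n * L := greedy_length ε A K n (n * L)
  refine ⟨σ, greedy_legal ε A K n L hn0, fun t h1 h2 => greedy_count ε A K n L hn0 t h1 h2, ?_⟩
  have hget : ∀ i : Fin σ.length, (σ.get i).spam =
      decide (expFee ε A (σ.take i) (σ.get i).time < K) := by
    intro i
    have h1 := greedy_get ε A K n (n * L) i i.2
    have h2 := greedy_take ε A K n (n * L) i (by have := i.2; omega)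
    have h3 : σ.get i = ⟨i / n + 1, decide (expFee ε A (greedy ε A K n i) (i / n + 1) < K)⟩ := h1
    rw [h3, show σ.take i = greedy ε A K n i from h2]
  -- the cost and the spending
  have hC : ((σ.countP (fun p => p.spam) : ℝ≥0∞) + σ.countP (fun p => !p.spam) * K) / L ≤
      expect ε A (costRate A L σ) := by
    rw [expect_cost]
    apply ENNReal.div_le_div_right
    rw [← mul_one (σ.countP (fun p => p.spam) : ℝ≥0∞), ← sum_ite_eq_countP]
    apply Finset.sum_le_sum
    intro i _
    have h := hget i
    by_cases hs : (σ.get i).spam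
    · rw [if_pos hs, if_pos hs]
    · rw [if_neg hs, if_neg hs]
      rw [Bool.not_eq_true] at hs
      rw [hs] at h
      exact not_lt.1 (of_decide_eq_false h.symm)
  have hT : expect ε A (spendRate A L σ) ≤ (σ.countP (fun p => p.spam) * K) / L := by
    rw [expect_spend]
    apply ENNReal.div_le_div_right
    rw [← add_zero ((σ.countP (fun p => p.spam) : ℝ≥0∞) * K),
      ← mul_zero (σ.countP (fun p => !p.spam) : ℝ≥0∞), ← sum_ite_eq_countP]
    apply Finset.sum_le_sum
    intro i _
    have h := hget i
    by_cases hs : (σ.get i).spam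
    · rw [if_pos hs, if_pos hs]
      rw [hs] at h
      exact le_of_lt (of_decide_eq_true h.symm)
    · rw [if_neg hs, if_neg hs]
      simp
  refine lt_of_lt_of_le ?_ hC
  set B := σ.countP (fun p => p.spam) with hB
  set G := σ.countP (fun p => !p.spam) with hG
  have hBG : B + G = n * L := by
    rw [← hlen, hB, hG]
    have := List.length_eq_countP_add_countP (l := σ) (fun p => p.spam)
    rw [this]
    simp
  have hL0 : (L : ℝ≥0∞) ≠ 0 := by
    have : L ≠ 0 := by omega
    exact_mod_cast this
  have hLt : (L : ℝ≥0∞) ≠ ∞ := ENNReal.natCast_ne_top L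
  -- the spending rate is at most `(c + 1) n`
  have hT' : expect ε A (spendRate A L σ) ≤ K * n := by
    refine hT.trans ?_
    rw [ENNReal.div_le_iff hL0 hLt, mul_comm (B : ℝ≥0∞) K, mul_assoc]
    gcongr
    have : (B : ℝ≥0∞) ≤ ((n * L : ℕ) : ℝ≥0∞) := by
      rw [← hBG]
      exact_mod_cast Nat.le_add_right B G
    rwa [Nat.cast_mul] at this
  have hpow : (c : ℝ≥0∞) * (expect ε A (spendRate A L σ)) ^ a < n := by
    have h1 : (expect ε A (spendRate A L σ)) ^ a ≤ (K * n) ^ a :=
      ENNReal.rpow_le_rpow hT' ha0
    refine lt_of_le_of_lt (mul_le_mul_right h1 _) ?_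
    have h2 : K * (n : ℝ≥0∞) = (((c + 1) * n : ℝ≥0) : ℝ≥0∞) := by
      rw [hK]; push_cast; rfl
    rw [h2, ← ENNReal.coe_rpow_of_nonneg _ ha0, ← ENNReal.coe_mul]
    have h3 : (n : ℝ≥0∞) = ((n : ℝ≥0) : ℝ≥0∞) := by push_cast; rfl
    rw [h3, ENNReal.coe_lt_coe]
    rw [← NNReal.coe_lt_coe]
    push_cast
    exact hn
  have hfin : (c : ℝ≥0∞) * (G / L) ≠ ∞ :=
    ENNReal.mul_ne_top ENNReal.coe_ne_top (ENNReal.div_ne_top (ENNReal.natCast_ne_top G) hL0)
  calc (c : ℝ≥0∞) * ((expect ε A (spendRate A L σ)) ^ a + goodRate L σ)
      = (c : ℝ≥0∞) * (expect ε A (spendRate A L σ)) ^ a + c * (G / L) := by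
        rw [mul_add]
        rfl
    _ < n + c * (G / L) := ENNReal.add_lt_add_right hfin hpow
    _ = ((B : ℝ≥0∞) + G * K) / L := by
        have h1 : (n : ℝ≥0∞) = ((B : ℝ≥0∞) + G) / L := by
          rw [ENNReal.eq_div_iff hL0 hLt]
          rw [mul_comm]
          exact_mod_cast hBG.symm
        rw [h1, hK]
        push_cast
        simp only [div_eq_mul_inv]
        ring

end Pool.Agent.Results.MP_590456_lc.NoSublinearBound
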